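import Mathlib

/-!
# Split extensions of an additive commutative group by a group acting on it
-/

set_option autoImplicit false

namespace Pool.Agent.V1135

/-- The split extension of `V` by `Q`: pairs `(v, q)` with
`(v, q) * (w, r) = (v + q • w, q * r)`. -/
@[ext]
structure Semi (Q V : Type*) where
  /-- the component in the normal abelian subgroup -/
  v : V
  /-- the component in the complement -/
  q : Q

namespace Semi

variable {Q V : Type*} [Group Q] [AddCommGroup V] [DistribMulAction Q V]

instance : Mul (Semi Q V) := ⟨fun a b => ⟨a.v + a.q • b.v, a.q * b.q⟩⟩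
instance : One (Semi Q V) := ⟨⟨0, 1⟩⟩
instance : Inv (Semi Q V) := ⟨fun a => ⟨-(a.q⁻¹ • a.v), a.q⁻¹⟩⟩

@[simp] theorem mul_v (a b : Semi Q V) : (a * b).v = a.v + a.q • b.v := rfl
@[simp] theorem mul_q (a b : Semi Q V) : (a * b).q = a.q * b.q := rfl
@[simp] theorem one_v : (1 : Semi Q V).v = 0 := rfl
@[simp] theorem one_q : (1 : Semi Q V).q = 1 := rfl
@[simp] theorem inv_v (a : Semi Q V) : (a⁻¹).v = -(a.q⁻¹ • a.v) := rfl
@[simp] theorem inv_q (a : Semi Q V) : (a⁻¹).q = a.q⁻¹ := rfl

instance : Group (Semi Q V) where
  mul_assoc a b c := by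
    ext
    · simp [smul_add, mul_smul, add_assoc]
    · simp [mul_assoc]
  one_mul a := by ext <;> simp
  mul_one a := by ext <;> simp
  inv_mul_cancel a := by ext <;> simp

/-- The projection onto the complement. -/
def proj : Semi Q V →* Q where
  toFun a := a.q
  map_one' := rfl
  map_mul' _ _ := rfl

@[simp] theorem proj_apply (a : Semi Q V) : proj a = a.q := rfl

/-- Elements of the normal subgroup. -/
def inl (v : V) : Semi Q V := ⟨v, 1⟩

/-- Elements of the complement. -/
def inr : Q →* Semi Q V where
  toFun q := ⟨0, q⟩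
  map_one' := rfl
  map_mul' _ _ := by ext <;> simp

@[simp] theorem inl_v (v : V) : (inl v : Semi Q V).v = v := rfl
@[simp] theorem inl_q (v : V) : (inl v : Semi Q V).q = 1 := rfl
@[simp] theorem inr_v (q : Q) : (inr q : Semi Q V).v = 0 := rfl
@[simp] theorem inr_q (q : Q) : (inr q : Semi Q V).q = q := rfl

theorem pow_q (a : Semi Q V) (n : ℕ) : (a ^ n).q = a.q ^ n := by
  rw [← proj_apply, map_pow, proj_apply]

theorem inl_add (v w : V) : (inl (v + w) : Semi Q V) = inl v * inl w := by
  ext <;> simp

theorem inl_nsmul (v : V) (n : ℕ) : (inl (n • v) : Semi Q V) = inl v ^ n := by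
  induction n with
  | zero => ext <;> simp
  | succ n ih => rw [succ_nsmul, inl_add, ih, pow_succ]

/-- `Semi Q V` is equivalent to the product as a type. -/
def equivProd : Semi Q V ≃ V × Q where
  toFun a := (a.v, a.q)
  invFun p := ⟨p.1, p.2⟩
  left_inv _ := rfl
  right_inv _ := rfl

instance [Finite Q] [Finite V] : Finite (Semi Q V) := Finite.of_equiv _ equivProd.symm

/-- An equivariant additive map induces a homomorphism of split extensions. -/
def mapV {W : Type*} [AddCommGroup W] [DistribMulAction Q W] (f : V →+ W)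
    (hf : ∀ (q : Q) (v : V), f (q • v) = q • f v) : Semi Q V →* Semi Q W where
  toFun a := ⟨f a.v, a.q⟩
  map_one' := by ext <;> simp
  map_mul' a b := by ext <;> simp [hf]

end Semi

end Pool.Agent.V1135
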