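import Mathlib

/-!
# Continuous association schemes

Definitions of hypergroups and continuous association schemes (CAS), of the properties (T1) and
(T2), and a proof that a commutative CAS with (T1) has (T2).
-/

set_option autoImplicit false

namespace Pool.Agent.V1135.CAS

open MeasureTheory Topology

/-- continuity of a map into the compact subsets of `Y` with the Hausdorff (Vietoris) topology -/
def SetContinuous {P Y : Type*} [TopologicalSpace P] [TopologicalSpace Y] (S : P → Set Y) : Prop :=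
  ∀ U : Set Y, IsOpen U → IsOpen {p | S p ⊆ U} ∧ IsOpen {p | (S p ∩ U).Nonempty}

/-- A hypergroup (Dunkl-Jewett-Spector); `conv x y` is the convolution of the point masses at `x`
and `y`. -/
structure Hypergroup (D : Type*) [TopologicalSpace D] [MeasurableSpace D] where
  conv : D → D → Measure D
  e : D
  inv : D → D
  prob : ∀ x y, IsProbabilityMeasure (conv x y)
  conv_cont : ∀ f : BoundedContinuousFunction D ℝ,
    Continuous fun p : D × D => ∫ z, f z ∂(conv p.1 p.2)
  supp_compact : ∀ x y, IsCompact (conv x y).support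
  supp_cont : SetContinuous fun p : D × D => (conv p.1 p.2).support
  assoc : ∀ (f : BoundedContinuousFunction D ℝ) (x y z : D),
    ∫ u, (∫ w, f w ∂(conv u z)) ∂(conv x y) = ∫ v, (∫ w, f w ∂(conv x v)) ∂(conv y z)
  conv_e : ∀ x, conv x e = Measure.dirac x
  e_conv : ∀ x, conv e x = Measure.dirac x
  inv_cont : Continuous inv
  inv_inv : ∀ x, inv (inv x) = x
  e_mem : ∀ x y, e ∈ (conv x y).support ↔ y = inv x
  map_inv : ∀ x y, (conv x y).map inv = conv (inv y) (inv x)

/-- A continuous association scheme `(X, D, K)` with its partition map `π`. -/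
structure CAS (X D : Type*) [TopologicalSpace X] [MeasurableSpace X] [TopologicalSpace D]
    [MeasurableSpace D] where
  H : Hypergroup D
  K : X → D → Measure X
  π : X → X → D
  prob : ∀ x h, IsProbabilityMeasure (K x h)
  K_cont : ∀ f : BoundedContinuousFunction X ℝ, Continuous fun p : X × D => ∫ y, f y ∂(K p.1 p.2)
  supp_compact : ∀ x h, IsCompact (K x h).support
  supp_cont : SetContinuous fun p : X × D => (K p.1 p.2).support
  mem_supp : ∀ x y h, y ∈ (K x h).support ↔ π x y = h
  π_cont : Continuous fun p : X × X => π p.1 p.2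
  K_e : ∀ x, K x H.e = Measure.dirac x
  K_comp : ∀ (h₁ h₂ : D) (x : X) (A : Set X), MeasurableSet A →
    ∫⁻ w, K w h₂ A ∂(K x h₁) = ∫⁻ h, K x h A ∂(H.conv h₁ h₂)
  exists_omega : ∃ ω : Measure X, IsFiniteMeasureOnCompacts ω ∧ ω.IsOpenPosMeasure ∧
    ∀ (h : D) (f g : X → ℝ), Continuous f → HasCompactSupport f → Continuous g →
      HasCompactSupport g →
      ∫ x, (∫ y, f y ∂(K x (H.inv h))) * g x ∂ω = ∫ x, f x * (∫ y, g y ∂(K x h)) ∂ω

section Defs

variable {X D : Type*} [TopologicalSpace X] [MeasurableSpace X] [TopologicalSpace D]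
  [MeasurableSpace D]

/-- `ω` is a positive Radon measure on `X` with full support as in (4). (On a second countable
locally compact Hausdorff space every measure finite on compact sets is Radon.) -/
def CAS.IsOmega (C : CAS X D) (ω : Measure X) : Prop :=
  IsFiniteMeasureOnCompacts ω ∧ ω.IsOpenPosMeasure ∧
    ∀ (h : D) (f g : X → ℝ), Continuous f → HasCompactSupport f → Continuous g →
      HasCompactSupport g →
      ∫ x, (∫ y, f y ∂(C.K x (C.H.inv h))) * g x ∂ω = ∫ x, f x * (∫ y, g y ∂(C.K x h)) ∂ω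

/-- `ω` is a left Haar measure of the hypergroup. -/
def Hypergroup.IsLeftHaar (H : Hypergroup D) (ω : Measure D) : Prop :=
  IsFiniteMeasureOnCompacts ω ∧ ω ≠ 0 ∧
    ∀ (x : D) (f : D → ℝ), Continuous f → HasCompactSupport f →
      ∫ y, (∫ z, f z ∂(H.conv x y)) ∂ω = ∫ y, f y ∂ω

/-- The hypergroup is commutative. -/
def Hypergroup.Comm (H : Hypergroup D) : Prop := ∀ x y, H.conv x y = H.conv y x

/-- property (T1) -/
def CAS.T1 (C : CAS X D) : Prop :=
  ∀ (h : D) (x y : X) (f : D → ℝ), Continuous f → HasCompactSupport f →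
    ∫ l, f l ∂(C.H.conv (C.π x y) h) = ∫ z, f (C.π x z) ∂(C.K y h)

/-- `T_f = T^{f ∘ π}` for all `f`, for the given measures on `X` and `D` -/
def CAS.T2For (C : CAS X D) (ωX : Measure X) (ωD : Measure D) : Prop :=
  ∀ (f : D → ℝ) (g : X → ℝ), Continuous f → HasCompactSupport f → Continuous g →
    HasCompactSupport g → ∀ x,
    ∫ h, (∫ y, g y ∂(C.K x h)) * f h ∂ωD = ∫ y, f (C.π x y) * g y ∂ωX

/-- property (T2) -/
def CAS.T2 (C : CAS X D) : Prop :=
  ∃ (ωX : Measure X) (ωD : Measure D), C.IsOmega ωX ∧ C.H.IsLeftHaar ωD ∧ C.T2For ωX ωD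

end Defs

/-! ### Generalities -/

section General

variable {Y : Type*} [TopologicalSpace Y] [MeasurableSpace Y] [SecondCountableTopology Y]
  [BorelSpace Y]

theorem integral_congr_supp (μ : Measure Y) {f g : Y → ℝ} (h : ∀ y ∈ μ.support, f y = g y) :
    ∫ y, f y ∂μ = ∫ y, g y ∂μ := by
  apply integral_congr_ae
  filter_upwards [Measure.support_mem_ae (μ := μ)] with y hy
  exact h y hy

theorem integral_pos_supp (μ : Measure Y) [IsFiniteMeasure μ] {f : Y → ℝ} (hf : Continuous f)
    (hb : ∃ M, ∀ y, f y ≤ M) (h0 : ∀ y, 0 ≤ f y) {y : Y} (hy : y ∈ μ.support) (hfy : 0 < f y) :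
    0 < ∫ z, f z ∂μ := by
  have hint : Integrable f μ := by
    obtain ⟨M, hM⟩ := hb
    refine Integrable.mono' (integrable_const M) hf.aestronglyMeasurable ?_
    filter_upwards with z
    rw [Real.norm_eq_abs, abs_of_nonneg (h0 z)]
    exact hM z
  rw [integral_pos_iff_support_of_nonneg h0 hint]
  have hU : {z | 0 < f z} ∈ 𝓝 y := (isOpen_lt continuous_const hf).mem_nhds hfy
  have := (Measure.mem_support_iff_forall y).mp hy _ hU
  refine this.trans_le (measure_mono ?_)
  intro z hz
  exact ne_of_gt hz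

/-- a union of compact sets depending continuously on a parameter in a compact set -/
theorem isCompact_iUnion {P Z : Type*} [TopologicalSpace P] [TopologicalSpace Z] {S : P → Set Z}
    (hS : SetContinuous S) (hc : ∀ p, IsCompact (S p)) {C : Set P} (hC : IsCompact C) :
    IsCompact (⋃ p ∈ C, S p) := by
  apply isCompact_of_finite_subcover
  intro ι U hU hcov
  -- for each `p` a finite subcover of `S p`
  have h1 : ∀ p ∈ C, ∃ t : Finset ι, S p ⊆ ⋃ i ∈ t, U i := by
    intro p hp
    refine (hc p).elim_finite_subcover U hU ?_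
    intro z hz
    exact hcov (Set.mem_biUnion hp hz)
  choose! t ht using h1
  have h2 : C ⊆ ⋃ p : C, {q | S q ⊆ ⋃ i ∈ t p, U i} := by
    intro p hp
    exact Set.mem_iUnion.mpr ⟨⟨p, hp⟩, ht p hp⟩
  obtain ⟨s, hs⟩ := hC.elim_finite_subcover (fun p : C => {q | S q ⊆ ⋃ i ∈ t p, U i})
    (fun p => (hS _ (isOpen_biUnion fun i _ => hU i)).1) h2
  classical
  refine ⟨s.biUnion fun p => t p, ?_⟩
  intro z hz
  rw [Set.mem_iUnion₂] at hz
  obtain ⟨q, hq, hz⟩ := hz
  have := hs hq
  rw [Set.mem_iUnion₂] at this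
  obtain ⟨p, hp, hqp⟩ := this
  have := hqp hz
  rw [Set.mem_iUnion₂] at this ⊢
  obtain ⟨i, hi, hzi⟩ := this
  exact ⟨i, Finset.mem_biUnion.mpr ⟨p, hp, hi⟩, hzi⟩

/-- a continuous function equal to `1` on a compact set -/
theorem exists_one {Z : Type*} [TopologicalSpace Z] [T2Space Z] [LocallyCompactSpace Z] {C : Set Z}
    (hC : IsCompact C) : ∃ g : Z → ℝ, Continuous g ∧ HasCompactSupport g ∧ (∀ z ∈ C, g z = 1) ∧
      ∀ z, 0 ≤ g z := by
  obtain ⟨f, hf1, -, hf2, hf3⟩ := exists_continuous_one_zero_of_isCompact hC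
    (isClosed_empty) (by simp)
  exact ⟨f, f.continuous, hf2, hf1, fun z => (hf3 z).1⟩

end General

/-- a bump function -/
theorem exists_bump {Z : Type*} [TopologicalSpace Z] [T2Space Z] [LocallyCompactSpace Z]
    {U : Set Z} (hU : IsOpen U) {z : Z} (hz : z ∈ U) :
    ∃ g : Z → ℝ, Continuous g ∧ HasCompactSupport g ∧ g z = 1 ∧ (∀ w, w ∉ U → g w = 0) ∧
      ∀ w, 0 ≤ g w := by
  obtain ⟨f, hf1, hf0, hf2, hf3⟩ := exists_continuous_one_zero_of_isCompact
    (isCompact_singleton (x := z)) (isClosed_compl_iff.mpr hU) (by simpa using hz)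
  exact ⟨f, f.continuous, hf2, hf1 (Set.mem_singleton z), fun w hw => hf0 hw, fun z => (hf3 z).1⟩

theorem continuous_param {P Y : Type*} [TopologicalSpace P] [FirstCountableTopology P]
    [LocallyCompactSpace P] [TopologicalSpace Y] [MeasurableSpace Y] [OpensMeasurableSpace Y]
    [SecondCountableTopology Y] [LocallyCompactSpace Y]
    {μ : Measure Y} [IsFiniteMeasureOnCompacts μ] {F : P → Y → ℝ} (hF : Continuous F.uncurry)
    {s : Set Y} (hs : IsCompact s) (h0 : ∀ p y, y ∉ s → F p y = 0) :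
    Continuous fun p => ∫ y, F p y ∂μ := by
  have h := continuous_parametric_integral_of_continuous (μ := μ) hF hs
  have h2 : (fun p => ∫ y, F p y ∂μ) = fun p => ∫ y in s, F p y ∂μ := by
    funext p
    exact (setIntegral_eq_integral_of_forall_compl_eq_zero (fun y hy => h0 p y hy)).symm
  rw [h2]
  exact h

theorem swap' {P Y : Type*} [TopologicalSpace P] [T2Space P] [MeasurableSpace P]
    [OpensMeasurableSpace P]
    [TopologicalSpace Y] [T2Space Y] [MeasurableSpace Y] [OpensMeasurableSpace Y]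
    {μ : Measure P} {ν : Measure Y} [IsFiniteMeasureOnCompacts μ] [IsFiniteMeasureOnCompacts ν]
    {F : P → Y → ℝ} (hF : Continuous F.uncurry) {s : Set P} {t : Set Y} (hs : IsCompact s)
    (ht : IsCompact t) (h1 : ∀ p y, p ∉ s → F p y = 0) (h2 : ∀ p y, y ∉ t → F p y = 0) :
    ∫ p, (∫ y, F p y ∂ν) ∂μ = ∫ y, (∫ p, F p y ∂μ) ∂ν := by
  refine integral_integral_swap_of_hasCompactSupport hF ?_
  refine HasCompactSupport.intro (hs.prod ht) ?_
  rintro ⟨p, y⟩ hpy
  by_cases hp : p ∈ s
  · exact h2 p y fun hy => hpy ⟨hp, hy⟩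
  · exact h1 p y hp

/-! ### The main argument -/

section Main

variable {X D : Type*} [TopologicalSpace X] [T2Space X] [LocallyCompactSpace X]
  [SecondCountableTopology X] [MeasurableSpace X] [BorelSpace X] [TopologicalSpace D] [T2Space D]
  [LocallyCompactSpace D] [SecondCountableTopology D] [MeasurableSpace D] [BorelSpace D]
  (C : CAS X D)

/-- `T_h f (x)` -/
noncomputable def CAS.T (C : CAS X D) (h : D) (f : X → ℝ) (x : X) : ℝ := ∫ y, f y ∂(C.K x h)

/-- `f(l * m)` -/
noncomputable def CAS.cv (C : CAS X D) (f : D → ℝ) (l m : D) : ℝ := ∫ z, f z ∂(C.H.conv l m)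

theorem continuous_T {P : Type*} [TopologicalSpace P] {f : X → ℝ} (hf : Continuous f)
    (hfc : HasCompactSupport f) {a : P → X} {b : P → D} (ha : Continuous a) (hb : Continuous b) :
    Continuous fun p => C.T (b p) f (a p) := by
  obtain ⟨M, hM⟩ := hfc.exists_bound_of_continuous hf
  have := C.K_cont (BoundedContinuousFunction.ofNormedAddCommGroup f hf M hM)
  exact this.comp (ha.prodMk hb)

theorem continuous_cv {P : Type*} [TopologicalSpace P] {f : D → ℝ} (hf : Continuous f)
    (hfc : HasCompactSupport f) {a b : P → D} (ha : Continuous a) (hb : Continuous b) :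
    Continuous fun p => C.cv f (a p) (b p) := by
  obtain ⟨M, hM⟩ := hfc.exists_bound_of_continuous hf
  have := C.H.conv_cont (BoundedContinuousFunction.ofNormedAddCommGroup f hf M hM)
  exact this.comp (ha.prodMk hb)

theorem T_congr {h : D} {x : X} {f g : X → ℝ} (hfg : ∀ y, C.π x y = h → f y = g y) :
    C.T h f x = C.T h g x := by
  unfold CAS.T
  apply integral_congr_supp
  intro y hy
  exact hfg y ((C.mem_supp x y h).mp hy)

theorem T_const {h : D} {x : X} {f : X → ℝ} {c : ℝ} (hf : ∀ y, C.π x y = h → f y = c) :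
    C.T h f x = c := by
  rw [T_congr C (g := fun _ => c) hf]
  unfold CAS.T
  have := C.prob x h
  simp

theorem T_pos {h : D} {x y : X} (hxy : C.π x y = h) {g : X → ℝ} (hg : Continuous g)
    (hgc : HasCompactSupport g) (h0 : ∀ z, 0 ≤ g z) (hgy : 0 < g y) : 0 < C.T h g x := by
  unfold CAS.T
  have := C.prob x h
  obtain ⟨M, hM⟩ := hgc.exists_bound_of_continuous hg
  refine integral_pos_supp _ hg ⟨M, fun y => (le_abs_self _).trans (hM y)⟩ h0
    ((C.mem_supp x y h).mpr hxy) hgy

theorem T_nonneg {h : D} {x : X} {g : X → ℝ} (h0 : ∀ z, 0 ≤ g z) : 0 ≤ C.T h g x :=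
  integral_nonneg h0

theorem pi_self (x : X) : C.π x x = C.H.e := by
  rw [← C.mem_supp, C.K_e, Measure.mem_support_iff_forall]
  intro U hU
  have : x ∈ U := mem_of_mem_nhds hU
  refine lt_of_lt_of_le ?_ Measure.le_dirac_apply
  simp [this]

theorem pi_symm {ω : Measure X} (hω : C.IsOmega ω) (x y : X) : C.π y x = C.H.inv (C.π x y) := by
  obtain ⟨h1, h2, h3⟩ := hω
  by_contra hne
  set h := C.π x y with hh
  have hopen : IsOpen {p : X × X | C.π p.1 p.2 ≠ C.H.inv h} :=
    isOpen_ne_fun C.π_cont continuous_const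
  obtain ⟨V, U, hV, hU, hyV, hxU, hVU⟩ := isOpen_prod_iff.mp hopen y x hne
  obtain ⟨f, hf, hfc, hf1, hf0, hfn⟩ := exists_bump hU hxU
  obtain ⟨g, hg, hgc, hg1, hg0, hgn⟩ := exists_bump hV hyV
  have h4 := h3 h f g hf hfc hg hgc
  have h5 : ∫ x, (∫ y, f y ∂(C.K x (C.H.inv h))) * g x ∂ω = 0 := by
    have : (fun x => (∫ y, f y ∂(C.K x (C.H.inv h))) * g x) = fun _ => 0 := by
      funext y'
      by_cases hy' : y' ∈ V
      · have : C.T (C.H.inv h) f y' = 0 := by
          apply T_const
          intro x' hx'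
          apply hf0
          intro hx'U
          exact hVU (Set.mk_mem_prod hy' hx'U) hx'
        unfold CAS.T at this
        rw [this, zero_mul]
      · rw [hg0 y' hy', mul_zero]
    rw [this]
    simp
  have h6 : 0 < ∫ x, f x * (∫ y, g y ∂(C.K x h)) ∂ω := by
    have hc : Continuous fun x => f x * (∫ y, g y ∂(C.K x h)) :=
      hf.mul (continuous_T C hg hgc continuous_id continuous_const)
    refine Continuous.integral_pos_of_hasCompactSupport_nonneg_nonzero (x := x) hc ?_ ?_ ?_
    · exact hfc.mul_right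
    · intro z
      exact mul_nonneg (hfn z) (T_nonneg C hgn)
    · have := T_pos C hh.symm hg hgc hgn (by rw [hg1]; norm_num)
      unfold CAS.T at this
      rw [hf1]
      simpa using this.ne'
  linarith

theorem isCompact_pre {A : Set X} {B : Set D} (hA : IsCompact A) (hB : IsCompact B) :
    IsCompact {z | ∃ x ∈ A, C.π x z ∈ B} := by
  have := isCompact_iUnion C.supp_cont (fun p => C.supp_compact p.1 p.2) (hA.prod hB)
  convert this using 1
  ext z
  simp only [Set.mem_setOf_eq, Set.mem_iUnion, Set.mem_prod]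
  constructor
  · rintro ⟨x, hx, hz⟩
    exact ⟨(x, C.π x z), ⟨hx, hz⟩, (C.mem_supp _ _ _).mpr rfl⟩
  · rintro ⟨⟨x, h⟩, ⟨hx, hh⟩, hz⟩
    exact ⟨x, hx, by rw [(C.mem_supp _ _ _).mp hz]; exact hh⟩

theorem isCompact_pre1 (x : X) {B : Set D} (hB : IsCompact B) : IsCompact {z | C.π x z ∈ B} := by
  have := isCompact_pre C (isCompact_singleton (x := x)) hB
  simpa using this

theorem continuous_pi (x : X) : Continuous fun z => C.π x z :=
  C.π_cont.comp (continuous_const.prodMk continuous_id)

theorem compPi_cont (x : X) {f : D → ℝ} (hf : Continuous f) :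
    Continuous fun z => f (C.π x z) := hf.comp (continuous_pi C x)

theorem compPi_supp (x : X) {f : D → ℝ} (hfc : HasCompactSupport f) :
    HasCompactSupport fun z => f (C.π x z) := by
  refine HasCompactSupport.intro (isCompact_pre1 C x hfc) ?_
  intro z hz
  exact image_eq_zero_of_notMem_tsupport hz

section Omega

variable {ω : Measure X} (hω : C.IsOmega ω)

include hω

theorem T_supp (h : D) {f : X → ℝ} (hfc : HasCompactSupport f) :
    HasCompactSupport (C.T h f) := by
  refine HasCompactSupport.intro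
    (isCompact_pre C hfc (isCompact_singleton (x := C.H.inv h))) ?_
  intro x hx
  apply T_const
  intro y hy
  by_contra hne
  apply hx
  refine ⟨y, subset_tsupport _ hne, ?_⟩
  rw [pi_symm C hω x y, hy]
  rfl

theorem adj (h : D) {f g : X → ℝ} (hf : Continuous f) (hfc : HasCompactSupport f)
    (hg : Continuous g) (hgc : HasCompactSupport g) :
    ∫ x, C.T (C.H.inv h) f x * g x ∂ω = ∫ x, f x * C.T h g x ∂ω :=
  hω.2.2 h f g hf hfc hg hgc

theorem T_inv (h : D) {f : X → ℝ} (hf : Continuous f) (hfc : HasCompactSupport f) :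
    ∫ x, C.T h f x ∂ω = ∫ x, f x ∂ω := by
  -- a function equal to one on a large compact set
  have hc1 : IsCompact (tsupport (C.T h f)) := T_supp C hω h hfc
  have hc2 : IsCompact {z | ∃ x ∈ tsupport f, C.π x z ∈ ({C.H.inv h} : Set D)} :=
    isCompact_pre C hfc isCompact_singleton
  obtain ⟨g, hg, hgc, hg1, hg0⟩ := exists_one (hc1.union hc2)
  have h4 := adj C hω (C.H.inv h) hf hfc hg hgc
  rw [C.H.inv_inv] at h4
  have e1 : (fun x => C.T h f x * g x) = fun x => C.T h f x := by
    funext x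
    by_cases hx : x ∈ tsupport (C.T h f)
    · rw [hg1 x (Or.inl hx), mul_one]
    · rw [image_eq_zero_of_notMem_tsupport hx, zero_mul]
  have e2 : (fun x => f x * C.T (C.H.inv h) g x) = fun x => f x := by
    funext x
    by_cases hx : x ∈ tsupport f
    · rw [T_const C (c := 1), mul_one]
      intro y hy
      exact hg1 y (Or.inr ⟨x, hx, hy⟩)
    · rw [image_eq_zero_of_notMem_tsupport hx, zero_mul]
  rw [e1, e2] at h4
  exact h4

end Omega

section WithT1

variable {ω : Measure X}

theorem cv_eq (h1 : C.T1) (h : D) (x y : X) {f : D → ℝ} (hf : Continuous f)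
    (hfc : HasCompactSupport f) :
    C.cv f (C.π x y) h = C.T h (fun z => f (C.π x z)) y := h1 h x y f hf hfc

theorem cv_const {f : D → ℝ} {l m : D} {c : ℝ}
    (h : ∀ z ∈ (C.H.conv l m).support, f z = c) : C.cv f l m = c := by
  unfold CAS.cv
  rw [integral_congr_supp _ (g := fun _ => c) h]
  have := C.H.prob l m
  simp

theorem cv_e (f : D → ℝ) (l : D) : C.cv f l C.H.e = f l := by
  unfold CAS.cv
  rw [C.H.conv_e]
  exact integral_dirac _ _

theorem star (hω : C.IsOmega ω) (h1 : C.T1) (x : X) (h : D) {f : D → ℝ} (hf : Continuous f)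
    (hfc : HasCompactSupport f) {g : X → ℝ} (hg : Continuous g) (hgc : HasCompactSupport g) :
    ∫ y, C.cv f (C.π x y) h * g y ∂ω = ∫ y, f (C.π x y) * C.T (C.H.inv h) g y ∂ω := by
  have h4 := adj C hω (C.H.inv h) (compPi_cont C x hf) (compPi_supp C x hfc) hg hgc
  rw [C.H.inv_inv] at h4
  rw [← h4]
  congr 1
  funext y
  rw [cv_eq C h1 h x y hf hfc]

theorem adjcv (hω : C.IsOmega ω) (h1 : C.T1) (hcomm : C.H.Comm) (x : X) (l : D) {f φ : D → ℝ}
    (hf : Continuous f) (hfc : HasCompactSupport f) (hφ : Continuous φ)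
    (hφc : HasCompactSupport φ) :
    ∫ z, φ (C.π x z) * C.cv f l (C.π x z) ∂ω =
      ∫ z, C.cv φ (C.H.inv l) (C.π x z) * f (C.π x z) ∂ω := by
  have h4 := adj C hω l (compPi_cont C x hφ) (compPi_supp C x hφc) (compPi_cont C x hf)
    (compPi_supp C x hfc)
  have e1 : ∀ z, C.cv f l (C.π x z) = C.T l (fun z => f (C.π x z)) z := by
    intro z
    rw [← cv_eq C h1 l x z hf hfc]
    unfold CAS.cv
    rw [hcomm]
  have e2 : ∀ z, C.cv φ (C.H.inv l) (C.π x z) = C.T (C.H.inv l) (fun z => φ (C.π x z)) z := by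
    intro z
    rw [← cv_eq C h1 _ x z hφ hφc]
    unfold CAS.cv
    rw [hcomm]
  simp only [e1, e2]
  exact h4.symm

theorem key (hω : C.IsOmega ω) (h1 : C.T1) (hcomm : C.H.Comm) (x : X) {f φ : D → ℝ}
    (hf : Continuous f) (hfc : HasCompactSupport f) (hφ : Continuous φ)
    (hφc : HasCompactSupport φ) {g : X → ℝ} (hg : Continuous g) (hgc : HasCompactSupport g) :
    ∫ z, f (C.π x z) * (∫ y, g y * C.cv φ (C.H.inv (C.π x y)) (C.π x z) ∂ω) ∂ω =
      ∫ y, f (C.π x y) * (∫ z, φ (C.π x z) * C.T (C.H.inv (C.π x z)) g y ∂ω) ∂ω := by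
  have := hω.1
  have hcf : IsCompact {z | C.π x z ∈ tsupport f} := isCompact_pre1 C x hfc
  have hcφ : IsCompact {z | C.π x z ∈ tsupport φ} := isCompact_pre1 C x hφc
  have hinv := C.H.inv_cont
  have hp1 : Continuous fun p : X × X => C.π x p.1 := (continuous_pi C x).comp continuous_fst
  have hp2 : Continuous fun p : X × X => C.π x p.2 := (continuous_pi C x).comp continuous_snd
  calc ∫ z, f (C.π x z) * (∫ y, g y * C.cv φ (C.H.inv (C.π x y)) (C.π x z) ∂ω) ∂ω
      = ∫ z, (∫ y, f (C.π x z) * (g y * C.cv φ (C.H.inv (C.π x y)) (C.π x z)) ∂ω) ∂ω := by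
        simp only [integral_const_mul]
    _ = ∫ y, (∫ z, f (C.π x z) * (g y * C.cv φ (C.H.inv (C.π x y)) (C.π x z)) ∂ω) ∂ω := by
        apply swap' (s := {z | C.π x z ∈ tsupport f}) (t := tsupport g) _ hcf hgc
        · intro p y hp
          rw [image_eq_zero_of_notMem_tsupport (f := f) hp, zero_mul]
        · intro p y hy
          rw [image_eq_zero_of_notMem_tsupport (f := g) hy, zero_mul, mul_zero]
        · exact (hf.comp hp1).mul ((hg.comp continuous_snd).mul
            (continuous_cv C hφ hφc (hinv.comp hp2) hp1))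
    _ = ∫ y, g y * (∫ z, C.cv φ (C.H.inv (C.π x y)) (C.π x z) * f (C.π x z) ∂ω) ∂ω := by
        simp only [← integral_const_mul]
        congr 1
        funext y
        congr 1
        funext z
        ring
    _ = ∫ y, g y * (∫ z, φ (C.π x z) * C.cv f (C.π x y) (C.π x z) ∂ω) ∂ω := by
        congr 1
        funext y
        rw [adjcv C hω h1 hcomm x (C.π x y) hf hfc hφ hφc]
    _ = ∫ y, (∫ z, φ (C.π x z) * (C.cv f (C.π x y) (C.π x z) * g y) ∂ω) ∂ω := by
        simp only [← integral_const_mul]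
        congr 1
        funext y
        congr 1
        funext z
        ring
    _ = ∫ z, (∫ y, φ (C.π x z) * (C.cv f (C.π x y) (C.π x z) * g y) ∂ω) ∂ω := by
        apply swap' (s := tsupport g) (t := {z | C.π x z ∈ tsupport φ}) _ hgc hcφ
        · intro p y hp
          rw [image_eq_zero_of_notMem_tsupport (f := g) hp, mul_zero, mul_zero]
        · intro p y hy
          rw [image_eq_zero_of_notMem_tsupport (f := φ) hy, zero_mul]
        · exact (hφ.comp hp2).mul ((continuous_cv C hf hfc hp1 hp2).mul (hg.comp continuous_fst))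
    _ = ∫ z, φ (C.π x z) * (∫ y, C.cv f (C.π x y) (C.π x z) * g y ∂ω) ∂ω := by
        simp only [integral_const_mul]
    _ = ∫ z, φ (C.π x z) * (∫ y, f (C.π x y) * C.T (C.H.inv (C.π x z)) g y ∂ω) ∂ω := by
        congr 1
        funext z
        rw [star C hω h1 x (C.π x z) hf hfc hg hgc]
    _ = ∫ z, (∫ y, φ (C.π x z) * (f (C.π x y) * C.T (C.H.inv (C.π x z)) g y) ∂ω) ∂ω := by
        simp only [integral_const_mul]
    _ = ∫ y, (∫ z, φ (C.π x z) * (f (C.π x y) * C.T (C.H.inv (C.π x z)) g y) ∂ω) ∂ω := by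
        apply swap' (s := {z | C.π x z ∈ tsupport φ}) (t := {z | C.π x z ∈ tsupport f}) _ hcφ hcf
        · intro p y hp
          rw [image_eq_zero_of_notMem_tsupport (f := φ) hp, zero_mul]
        · intro p y hy
          rw [image_eq_zero_of_notMem_tsupport (f := f) hy, zero_mul, mul_zero]
        · exact (hφ.comp hp1).mul ((hf.comp hp2).mul
            (continuous_T C hg hgc continuous_snd (hinv.comp hp1)))
    _ = ∫ y, f (C.π x y) * (∫ z, φ (C.π x z) * C.T (C.H.inv (C.π x z)) g y ∂ω) ∂ω := by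
        simp only [← integral_const_mul]
        congr 1
        funext y
        congr 1
        funext z
        ring

theorem localise_le (hω : C.IsOmega ω) (x : X) {G H : X → ℝ} (hG : Continuous G)
    (hH : Continuous H)
    (hk : ∀ f : D → ℝ, Continuous f → HasCompactSupport f →
      ∫ z, f (C.π x z) * G z ∂ω = ∫ z, f (C.π x z) * H z ∂ω) : G x ≤ H x := by
  by_contra hlt
  push Not at hlt
  have hU : IsOpen {z | H z < G z} := isOpen_lt hH hG
  have hW : IsOpen {h | (C.K x h).support ⊆ {z | H z < G z}} := by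
    have := (C.supp_cont _ hU).1
    exact this.preimage (continuous_const.prodMk continuous_id : Continuous fun h : D => (x, h))
  have heW : C.H.e ∈ {h | (C.K x h).support ⊆ {z | H z < G z}} := by
    intro z hz
    rw [C.K_e] at hz
    have : z = x := by
      by_contra hne
      rw [Measure.mem_support_iff_forall] at hz
      have h2 := hz {x}ᶜ (isOpen_compl_singleton.mem_nhds hne)
      rw [Measure.dirac_apply' _ (measurableSet_singleton x).compl] at h2
      simp at h2
    rw [this]
    exact hlt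
  obtain ⟨f, hf, hfc, hf1, hf0, hfn⟩ := exists_bump hW heW
  have hω' := hω
  obtain ⟨i1, i2, -⟩ := hω'
  have hFc := compPi_cont C x hf
  have hFs := compPi_supp C x hfc
  have hpos : 0 < ∫ z, f (C.π x z) * (G z - H z) ∂ω := by
    refine Continuous.integral_pos_of_hasCompactSupport_nonneg_nonzero (x := x)
      (hFc.mul (hG.sub hH)) hFs.mul_right ?_ ?_
    · intro z
      by_cases hz : C.π x z ∈ {h | (C.K x h).support ⊆ {z | H z < G z}}
      · have : H z < G z := hz ((C.mem_supp x z _).mpr rfl)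
        exact mul_nonneg (hfn _) (by linarith)
      · simp [hf0 _ hz]
    · rw [pi_self C x, hf1, one_mul]
      exact (sub_pos.mpr hlt).ne'
  have hsub : ∫ z, f (C.π x z) * (G z - H z) ∂ω =
      ∫ z, f (C.π x z) * G z ∂ω - ∫ z, f (C.π x z) * H z ∂ω := by
    rw [← integral_sub]
    · congr 1
      funext z
      ring
    · exact (hFc.mul hG).integrable_of_hasCompactSupport hFs.mul_right
    · exact (hFc.mul hH).integrable_of_hasCompactSupport hFs.mul_right
  rw [hk f hf hfc, sub_self] at hsub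
  linarith

theorem stepA (hω : C.IsOmega ω) (h1 : C.T1) (hcomm : C.H.Comm) (x : X) {φ : D → ℝ}
    (hφ : Continuous φ)
    (hφc : HasCompactSupport φ) {g : X → ℝ} (hg : Continuous g) (hgc : HasCompactSupport g) :
    ∫ y, g y * φ (C.H.inv (C.π x y)) ∂ω =
      ∫ z, φ (C.π x z) * C.T (C.H.inv (C.π x z)) g x ∂ω := by
  have := hω.1
  have hcφ : IsCompact {z | C.π x z ∈ tsupport φ} := isCompact_pre1 C x hφc
  have hinv := C.H.inv_cont
  have hp1 : Continuous fun p : X × X => C.π x p.1 := (continuous_pi C x).comp continuous_fst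
  have hp2 : Continuous fun p : X × X => C.π x p.2 := (continuous_pi C x).comp continuous_snd
  have hG : Continuous fun z => ∫ y, g y * C.cv φ (C.H.inv (C.π x y)) (C.π x z) ∂ω := by
    apply continuous_param (s := tsupport g) _ hgc
    · intro p y hy
      rw [image_eq_zero_of_notMem_tsupport (f := g) hy, zero_mul]
    · exact (hg.comp continuous_snd).mul (continuous_cv C hφ hφc (hinv.comp hp2) hp1)
  have hH : Continuous fun y => ∫ z, φ (C.π x z) * C.T (C.H.inv (C.π x z)) g y ∂ω := by
    apply continuous_param (s := {z | C.π x z ∈ tsupport φ}) _ hcφ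
    · intro p y hy
      rw [image_eq_zero_of_notMem_tsupport (f := φ) hy, zero_mul]
    · exact (hφ.comp hp2).mul (continuous_T C hg hgc continuous_fst (hinv.comp hp2))
  have hk := fun (f : D → ℝ) (hf : Continuous f) (hfc : HasCompactSupport f) =>
    key C hω h1 hcomm x hf hfc hφ hφc hg hgc
  have e := le_antisymm (localise_le C hω x hG hH hk)
    (localise_le C hω x hH hG (fun f hf hfc => (hk f hf hfc).symm))
  simp only [pi_self C x, cv_e] at e
  exact e

theorem compInv_supp {f : D → ℝ} (hfc : HasCompactSupport f) :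
    HasCompactSupport fun m => f (C.H.inv m) := by
  refine HasCompactSupport.intro (hfc.image C.H.inv_cont) ?_
  intro m hm
  by_contra hne
  exact hm ⟨C.H.inv m, subset_tsupport _ hne, C.H.inv_inv m⟩

theorem inv_invar (hω : C.IsOmega ω) (h1 : C.T1) (hcomm : C.H.Comm) (x : X) {φ : D → ℝ}
    (hφ : Continuous φ) (hφc : HasCompactSupport φ) :
    ∫ y, φ (C.H.inv (C.π x y)) ∂ω = ∫ z, φ (C.π x z) ∂ω := by
  have hc : IsCompact {y | C.π x y ∈ C.H.inv '' (tsupport φ)} :=
    isCompact_pre1 C x (hφc.image C.H.inv_cont)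
  obtain ⟨g, hg, hgc, hg1, hg0⟩ := exists_one hc
  have hA := stepA C hω h1 hcomm x hφ hφc hg hgc
  have e1 : ∀ y, g y * φ (C.H.inv (C.π x y)) = φ (C.H.inv (C.π x y)) := by
    intro y
    by_cases hy : φ (C.H.inv (C.π x y)) = 0
    · rw [hy, mul_zero]
    · rw [hg1, one_mul]
      exact ⟨C.H.inv (C.π x y), subset_tsupport _ hy, C.H.inv_inv _⟩
  have e2 : ∀ z, φ (C.π x z) * C.T (C.H.inv (C.π x z)) g x = φ (C.π x z) := by
    intro z
    by_cases hz : φ (C.π x z) = 0
    · rw [hz, zero_mul]
    · rw [T_const C (c := 1), mul_one]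
      intro w hw
      apply hg1
      exact ⟨C.π x z, subset_tsupport _ hz, hw.symm⟩
  simp only [e1, e2] at hA
  exact hA

theorem stepB (hω : C.IsOmega ω) (h1 : C.T1) (hcomm : C.H.Comm) (x : X) {f : D → ℝ}
    (hf : Continuous f) (hfc : HasCompactSupport f) {g : X → ℝ} (hg : Continuous g)
    (hgc : HasCompactSupport g) :
    ∫ y, g y * f (C.π x y) ∂ω = ∫ z, f (C.π x z) * C.T (C.π x z) g x ∂ω := by
  have hA := stepA C hω h1 hcomm x (φ := fun m => f (C.H.inv m)) (hf.comp C.H.inv_cont)
    (compInv_supp C hfc) hg hgc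
  simp only [C.H.inv_inv] at hA
  rw [hA]
  refine inv_invar C hω h1 hcomm x (φ := fun m => f m * C.T m g x) ?_ ?_
  · exact hf.mul (continuous_T C hg hgc continuous_const continuous_id)
  · exact hfc.mul_right

theorem indep (hω : C.IsOmega ω) (h1 : C.T1) (hcomm : C.H.Comm) (x x' : X) {F : D → ℝ}
    (hF : Continuous F) (hFc : HasCompactSupport F) :
    ∫ z, F (C.π x z) ∂ω = ∫ z, F (C.π x' z) ∂ω := by
  have hc := isCompact_iUnion C.H.supp_cont (fun p => C.H.supp_compact p.1 p.2)
    ((isCompact_singleton (x := C.π x' x)).prod hFc)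
  obtain ⟨k, hk, hkc, hk1, hk0⟩ := exists_one hc
  have hcv : ∀ m, F m ≠ 0 → C.cv k (C.π x' x) m = 1 := by
    intro m hm
    apply cv_const
    intro z hz
    apply hk1
    exact Set.mem_biUnion (x := (C.π x' x, m))
      (Set.mk_mem_prod (Set.mem_singleton _) (subset_tsupport _ hm)) hz
  have b1 := stepB C hω h1 hcomm x hF hFc (compPi_cont C x' hk) (compPi_supp C x' hkc)
  have b2 := stepB C hω h1 hcomm x' hk hkc (compPi_cont C x hF) (compPi_supp C x hFc)
  simp only [← cv_eq C h1 _ _ _ hk hkc] at b1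
  simp only [← cv_eq C h1 _ _ _ hF hFc] at b2
  rw [adjcv C hω h1 hcomm x' (C.π x x') hF hFc hk hkc, ← pi_symm C hω x x'] at b2
  have e1 : ∀ z, F (C.π x z) * C.cv k (C.π x' x) (C.π x z) = F (C.π x z) := by
    intro z
    by_cases hz : F (C.π x z) = 0
    · rw [hz, zero_mul]
    · rw [hcv _ hz, mul_one]
  have e2 : ∀ z, C.cv k (C.π x' x) (C.π x' z) * F (C.π x' z) = F (C.π x' z) := by
    intro z
    by_cases hz : F (C.π x' z) = 0
    · rw [hz, mul_zero]
    · rw [hcv _ hz, one_mul]
  simp only [e1] at b1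
  simp only [e2] at b2
  rw [← b1, ← b2]
  congr 1
  funext y
  ring

/-- a commutative CAS with (T1) has (T2), for every measure as in (4) -/
theorem t2For_of_t1 [Nonempty X] (hω : C.IsOmega ω) (h1 : C.T1) (hcomm : C.H.Comm) :
    ∃ ωD : Measure D, C.H.IsLeftHaar ωD ∧ C.T2For ω ωD := by
  obtain ⟨i1, i2, -⟩ := id hω
  obtain ⟨x0⟩ := ‹Nonempty X›
  have hme : Measurable fun z => C.π x0 z := (continuous_pi C x0).measurable
  have hint : ∀ F : D → ℝ, Continuous F →
      ∫ h, F h ∂(ω.map fun z => C.π x0 z) = ∫ z, F (C.π x0 z) ∂ω := by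
    intro F hF
    exact integral_map hme.aemeasurable hF.aestronglyMeasurable
  refine ⟨ω.map fun z => C.π x0 z, ⟨⟨?_⟩, ?_, ?_⟩, ?_⟩
  · intro B hB
    rw [Measure.map_apply hme hB.measurableSet]
    exact (isCompact_pre1 C x0 hB).measure_lt_top
  · intro h0
    have : ω Set.univ = 0 := by
      have := congrArg (fun μ => μ Set.univ) h0
      simpa [Measure.map_apply hme MeasurableSet.univ] using this
    have hpos := isOpen_univ.measure_pos ω ⟨x0, Set.mem_univ _⟩
    exact hpos.ne' this
  · intro l f hf hfc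
    rw [hint f hf]
    have := hint (fun y => C.cv f l y) (continuous_cv C hf hfc continuous_const continuous_id)
    unfold CAS.cv at this
    rw [this]
    have e : ∀ z, ∫ w, f w ∂(C.H.conv l (C.π x0 z)) = C.T l (fun z => f (C.π x0 z)) z := by
      intro z
      rw [← cv_eq C h1 l x0 z hf hfc]
      unfold CAS.cv
      rw [hcomm]
    simp only [e]
    exact T_inv C hω l (compPi_cont C x0 hf) (compPi_supp C x0 hfc)
  · intro f g hf hfc hg hgc x
    have hF : Continuous fun h => C.T h g x * f h :=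
      (continuous_T C hg hgc continuous_const continuous_id).mul hf
    have e0 := hint (fun h => C.T h g x * f h) hF
    unfold CAS.T at e0
    rw [e0]
    have e1 := indep C hω h1 hcomm x0 x hF hfc.mul_left
    unfold CAS.T at e1
    rw [e1]
    have e2 := stepB C hω h1 hcomm x hf hfc hg hgc
    unfold CAS.T at e2
    calc ∫ z, (∫ y, g y ∂(C.K x (C.π x z))) * f (C.π x z) ∂ω
        = ∫ z, f (C.π x z) * (∫ y, g y ∂(C.K x (C.π x z))) ∂ω := by
          congr 1
          funext z
          ring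
      _ = ∫ y, g y * f (C.π x y) ∂ω := e2.symm
      _ = ∫ y, f (C.π x y) * g y ∂ω := by
          congr 1
          funext y
          ring

theorem t2_of_t1 [Nonempty X] (h1 : C.T1) (hcomm : C.H.Comm) : C.T2 := by
  obtain ⟨ω, hω⟩ := C.exists_omega
  obtain ⟨ωD, h⟩ := t2For_of_t1 C (ω := ω) hω h1 hcomm
  exact ⟨ω, ωD, hω, h.1, h.2⟩

end WithT1

end Main

end Pool.Agent.V1135.CAS
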