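import Pool.Agent.V1135.CAS

/-!
# The association scheme of a non-unimodular group

The group `ℝ ⋊ ℝ` with `(a, b) (c, d) = (a + c, b + e ^ a d)` gives a continuous association
scheme with (T1); no continuous association scheme with the same partition map has (T2).
-/

set_option autoImplicit false

namespace Pool.Agent.V1135.CASEx

open MeasureTheory Topology Pool.Agent.V1135.CAS

/-- multiplication of the affine group -/
noncomputable def mul (x y : ℝ × ℝ) : ℝ × ℝ := (x.1 + y.1, x.2 + Real.exp x.1 * y.2)

/-- inversion of the affine group -/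
noncomputable def ginv (x : ℝ × ℝ) : ℝ × ℝ := (-x.1, -(Real.exp (-x.1) * x.2))

theorem mul_assoc' (x y z : ℝ × ℝ) : mul (mul x y) z = mul x (mul y z) := by
  unfold mul
  ext
  · simp only; ring
  · simp only
    rw [Real.exp_add]
    ring

theorem mul_zero' (x : ℝ × ℝ) : mul x (0, 0) = x := by
  unfold mul
  ext <;> simp

theorem zero_mul' (x : ℝ × ℝ) : mul (0, 0) x = x := by
  unfold mul
  ext <;> simp

theorem exp_exp_neg (a : ℝ) : Real.exp a * Real.exp (-a) = 1 := by
  rw [← Real.exp_add]; simp

theorem mul_ginv (x : ℝ × ℝ) : mul x (ginv x) = (0, 0) := by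
  unfold mul ginv
  ext
  · simp
  · simp only
    linear_combination (-x.2) * exp_exp_neg x.1

theorem ginv_mul (x : ℝ × ℝ) : mul (ginv x) x = (0, 0) := by
  unfold mul ginv
  ext
  · simp
  · simp

theorem ginv_ginv (x : ℝ × ℝ) : ginv (ginv x) = x := by
  unfold ginv
  ext
  · simp
  · simp only [neg_neg]
    linear_combination x.2 * exp_exp_neg x.1

theorem ginv_unique {x y : ℝ × ℝ} (h : mul x y = (0, 0)) : y = ginv x := by
  calc y = mul (0, 0) y := (zero_mul' y).symm
    _ = mul (mul (ginv x) x) y := by rw [ginv_mul]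
    _ = mul (ginv x) (mul x y) := mul_assoc' _ _ _
    _ = ginv x := by rw [h, mul_zero']

theorem ginv_mul_rev (x y : ℝ × ℝ) : ginv (mul x y) = mul (ginv y) (ginv x) := by
  symm
  apply ginv_unique
  rw [mul_assoc', ← mul_assoc' y, mul_ginv, zero_mul', mul_ginv]

theorem continuous_mul' {P : Type*} [TopologicalSpace P] {a b : P → ℝ × ℝ} (ha : Continuous a)
    (hb : Continuous b) : Continuous fun p => mul (a p) (b p) := by
  unfold mul
  fun_prop

theorem continuous_ginv : Continuous ginv := by
  unfold ginv
  fun_prop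

/-- the partition map -/
noncomputable def pi0 (x y : ℝ × ℝ) : ℝ × ℝ := mul (ginv x) y

theorem pi0_eq_iff (x y h : ℝ × ℝ) : pi0 x y = h ↔ y = mul x h := by
  unfold pi0
  constructor
  · rintro rfl
    rw [← mul_assoc', mul_ginv, zero_mul']
  · rintro rfl
    rw [← mul_assoc', ginv_mul, zero_mul']

theorem support_dirac (a : ℝ × ℝ) : (Measure.dirac a).support = {a} := by
  ext y
  rw [Set.mem_singleton_iff]
  constructor
  · intro hy
    by_contra hne
    rw [Measure.mem_support_iff_forall] at hy
    have h2 := hy {a}ᶜ (isOpen_compl_singleton.mem_nhds hne)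
    rw [Measure.dirac_apply' _ (measurableSet_singleton a).compl] at h2
    simp at h2
  · rintro rfl
    rw [Measure.mem_support_iff_forall]
    intro U hU
    have : y ∈ U := mem_of_mem_nhds hU
    refine lt_of_lt_of_le ?_ Measure.le_dirac_apply
    simp [this]

theorem setContinuous_singleton {P Y : Type*} [TopologicalSpace P] [TopologicalSpace Y]
    {F : P → Y} (hF : Continuous F) : SetContinuous fun p => ({F p} : Set Y) := by
  intro U hU
  constructor
  · have : {p | ({F p} : Set Y) ⊆ U} = F ⁻¹' U := by
      ext p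
      simp
    rw [this]
    exact hU.preimage hF
  · have : {p | (({F p} : Set Y) ∩ U).Nonempty} = F ⁻¹' U := by
      ext p
      simp
    rw [this]
    exact hU.preimage hF

/-- the group as a hypergroup -/
noncomputable def HG : Hypergroup (ℝ × ℝ) where
  conv x y := Measure.dirac (mul x y)
  e := (0, 0)
  inv := ginv
  prob x y := inferInstance
  conv_cont f := by
    simp only [integral_dirac]
    exact f.continuous.comp (continuous_mul' continuous_fst continuous_snd)
  supp_compact x y := by
    rw [support_dirac]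
    exact isCompact_singleton
  supp_cont := by
    simp only [support_dirac]
    exact setContinuous_singleton (continuous_mul' continuous_fst continuous_snd)
  assoc f x y z := by
    simp only [integral_dirac, mul_assoc']
  conv_e x := by rw [mul_zero']
  e_conv x := by rw [zero_mul']
  inv_cont := continuous_ginv
  inv_inv := ginv_ginv
  e_mem x y := by
    rw [support_dirac, Set.mem_singleton_iff]
    constructor
    · intro h
      exact ginv_unique h.symm
    · rintro rfl
      rw [mul_ginv]
  map_inv x y := by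
    rw [Measure.map_dirac' continuous_ginv.measurable, ginv_mul_rev]

/-- Lebesgue measure is invariant under right translations -/
theorem vol_right (h : ℝ × ℝ) : MeasurePreserving (fun x => mul x h) (volume : Measure (ℝ × ℝ))
    volume := by
  have h1 : MeasurePreserving (fun a : ℝ => a + h.1) volume volume :=
    measurePreserving_add_right volume h.1
  have := h1.skew_product (μc := (volume : Measure ℝ)) (μd := (volume : Measure ℝ))
    (g := fun a b => b + Real.exp a * h.2) (by fun_prop) (by
      filter_upwards with a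
      exact map_add_right_eq_self volume _)
  exact this

theorem mul_right_cancel (x h : ℝ × ℝ) : mul (mul x h) (ginv h) = x := by
  rw [mul_assoc', mul_ginv, mul_zero']

theorem mul_right_cancel' (x h : ℝ × ℝ) : mul (mul x (ginv h)) h = x := by
  rw [mul_assoc', ginv_mul, mul_zero']

theorem omega_volume (h : ℝ × ℝ) (f g : ℝ × ℝ → ℝ) (hf : Continuous f) (hg : Continuous g) :
    ∫ x, f (mul x (ginv h)) * g x = ∫ x, f x * g (mul x h) := by
  have hm := vol_right h
  have hF : Continuous fun z => f (mul z (ginv h)) * g z :=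
    (hf.comp (continuous_mul' continuous_id continuous_const)).mul hg
  have := integral_map (μ := (volume : Measure (ℝ × ℝ))) hm.measurable.aemeasurable
    (f := fun z => f (mul z (ginv h)) * g z) hF.aestronglyMeasurable
  rw [hm.map_eq] at this
  simpa only [mul_right_cancel] using this

/-- the continuous association scheme of the group -/
noncomputable def CG : CAS (ℝ × ℝ) (ℝ × ℝ) where
  H := HG
  K x h := Measure.dirac (mul x h)
  π := pi0
  prob x h := inferInstance
  K_cont f := by
    simp only [integral_dirac]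
    exact f.continuous.comp (continuous_mul' continuous_fst continuous_snd)
  supp_compact x h := by
    rw [support_dirac]
    exact isCompact_singleton
  supp_cont := by
    simp only [support_dirac]
    exact setContinuous_singleton (continuous_mul' continuous_fst continuous_snd)
  mem_supp x y h := by
    rw [support_dirac, Set.mem_singleton_iff, pi0_eq_iff]
  π_cont := continuous_mul' (continuous_ginv.comp continuous_fst) continuous_snd
  K_e x := by
    show Measure.dirac (mul x (0, 0)) = _
    rw [mul_zero']
  K_comp h₁ h₂ x A hA := by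
    show ∫⁻ w, Measure.dirac (mul w h₂) A ∂(Measure.dirac (mul x h₁)) =
      ∫⁻ h, Measure.dirac (mul x h) A ∂(Measure.dirac (mul h₁ h₂))
    rw [lintegral_dirac, lintegral_dirac, mul_assoc']
  exists_omega := by
    refine ⟨volume, inferInstance, inferInstance, ?_⟩
    intro h f g hf _ hg _
    show ∫ x, (∫ y, f y ∂(Measure.dirac (mul x (ginv h)))) * g x =
      ∫ x, f x * (∫ y, g y ∂(Measure.dirac (mul x h)))
    simp only [integral_dirac]
    exact omega_volume h f g hf hg

theorem CG_T1 : CG.T1 := by
  intro h x y f _ _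
  show ∫ l, f l ∂(Measure.dirac (mul (pi0 x y) h)) =
    ∫ z, f (pi0 x z) ∂(Measure.dirac (mul y h))
  rw [integral_dirac, integral_dirac]
  unfold pi0
  rw [mul_assoc']

/-! ### The tent function -/

/-- the tent function -/
noncomputable def v (d : ℝ) : ℝ := max 0 (1 - |d|)

theorem v_pos {d : ℝ} (h0 : 0 ≤ d) (h1 : d ≤ 1) : v d = 1 - d := by
  unfold v
  rw [abs_of_nonneg h0, max_eq_right (by linarith)]

theorem v_neg {d : ℝ} (h0 : d ≤ 0) (h1 : -1 ≤ d) : v d = 1 + d := by
  unfold v
  rw [abs_of_nonpos h0, max_eq_right (by linarith)]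
  ring

theorem v_ge {d : ℝ} (h : 1 ≤ d) : v d = 0 := by
  unfold v
  rw [abs_of_nonneg (by linarith), max_eq_left (by linarith)]

theorem v_le {d : ℝ} (h : d ≤ -1) : v d = 0 := by
  unfold v
  rw [abs_of_nonpos (by linarith), max_eq_left (by linarith)]

theorem tent (d : ℝ) : v (d / 2) = v d + 1 / 2 * v (d + 1) + 1 / 2 * v (d + -1) := by
  rcases le_total d (-2) with h | h
  · rw [v_le (d := d / 2) (by linarith), v_le (d := d) (by linarith),
      v_le (d := d + 1) (by linarith), v_le (d := d + -1) (by linarith)]
    ring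
  rcases le_total d (-1) with h1 | h1
  · rw [v_neg (d := d / 2) (by linarith) (by linarith), v_le (d := d) (by linarith),
      v_neg (d := d + 1) (by linarith) (by linarith), v_le (d := d + -1) (by linarith)]
    ring
  rcases le_total d 0 with h2 | h2
  · rw [v_neg (d := d / 2) (by linarith) (by linarith), v_neg (d := d) (by linarith) (by linarith),
      v_pos (d := d + 1) (by linarith) (by linarith), v_le (d := d + -1) (by linarith)]
    ring
  rcases le_total d 1 with h3 | h3
  · rw [v_pos (d := d / 2) (by linarith) (by linarith), v_pos (d := d) (by linarith) (by linarith),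
      v_ge (d := d + 1) (by linarith), v_neg (d := d + -1) (by linarith) (by linarith)]
    ring
  rcases le_total d 2 with h4 | h4
  · rw [v_pos (d := d / 2) (by linarith) (by linarith), v_ge (d := d) (by linarith),
      v_ge (d := d + 1) (by linarith), v_pos (d := d + -1) (by linarith) (by linarith)]
    ring
  · rw [v_ge (d := d / 2) (by linarith), v_ge (d := d) (by linarith),
      v_ge (d := d + 1) (by linarith), v_ge (d := d + -1) (by linarith)]
    ring

theorem v_cont : Continuous v := by
  unfold v
  fun_prop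

theorem v_nonneg (d : ℝ) : 0 ≤ v d := le_max_left _ _

theorem v_supp {d : ℝ} (hd : d ∉ Set.Icc (-1 : ℝ) 1) : v d = 0 := by
  by_cases h : d ≤ -1
  · exact v_le h
  · apply v_ge
    by_contra h1
    push Not at h h1
    exact hd ⟨h.le, h1.le⟩

/-! ### No scheme with this partition map has (T2) -/

section NoT2

variable (C : CAS (ℝ × ℝ) (ℝ × ℝ)) (hC : C.π = pi0)

include hC

theorem K_eq (x h : ℝ × ℝ) : C.K x h = Measure.dirac (mul x h) := by
  have hp := C.prob x h
  have hs : (C.K x h).support = {mul x h} := by
    ext y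
    rw [C.mem_supp, hC, pi0_eq_iff, Set.mem_singleton_iff]
  have h0 : C.K x h ({mul x h}ᶜ) = 0 := by
    rw [← hs]
    exact Measure.measure_compl_support
  have h1 : C.K x h {mul x h} = 1 := by
    have := measure_add_measure_compl (μ := C.K x h) (measurableSet_singleton (mul x h))
    rw [h0, add_zero, measure_univ] at this
    exact this
  ext A hA
  rw [Measure.dirac_apply' _ hA]
  by_cases hm : mul x h ∈ A
  · rw [Set.indicator_of_mem hm]
    apply le_antisymm prob_le_one
    rw [← h1]
    exact measure_mono (by simpa using hm)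
  · rw [Set.indicator_of_notMem hm]
    refine measure_mono_null ?_ h0
    intro z hz
    simp only [Set.mem_compl_iff, Set.mem_singleton_iff]
    rintro rfl
    exact hm hz

theorem conv_eq (h₁ h₂ : ℝ × ℝ) : C.H.conv h₁ h₂ = Measure.dirac (mul h₁ h₂) := by
  ext A hA
  have := C.K_comp h₁ h₂ (0, 0) A hA
  simp only [K_eq C hC, lintegral_dirac, zero_mul'] at this
  rw [this]
  have e : (fun h => Measure.dirac h A) = A.indicator (1 : ℝ × ℝ → ENNReal) := by
    funext h
    rw [Measure.dirac_apply' _ hA]
  rw [e, lintegral_indicator_one hA]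

theorem right_inv {ω : Measure (ℝ × ℝ)} (hω : C.IsOmega ω) (h : ℝ × ℝ) {f : ℝ × ℝ → ℝ}
    (hf : Continuous f) (hfc : HasCompactSupport f) : ∫ x, f (mul x h) ∂ω = ∫ x, f x ∂ω := by
  have := T_inv C hω h hf hfc
  unfold CAS.T at this
  simpa only [K_eq C hC, integral_dirac] using this

theorem left_inv {ω : Measure (ℝ × ℝ)} (hω : C.H.IsLeftHaar ω) (h : ℝ × ℝ) {f : ℝ × ℝ → ℝ}
    (hf : Continuous f) (hfc : HasCompactSupport f) : ∫ x, f (mul h x) ∂ω = ∫ x, f x ∂ω := by
  have := hω.2.2 h f hf hfc
  simpa only [conv_eq C hC, integral_dirac] using this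

theorem not_T2 : ¬ C.T2 := by
  rintro ⟨ωX, ωD, hX, hD, h2⟩
  obtain ⟨i1, i2, -⟩ := id hX
  have i3 := hD.1
  -- the two measures agree
  have heq : ∀ f : ℝ × ℝ → ℝ, Continuous f → HasCompactSupport f →
      ∫ x, f x ∂ωD = ∫ x, f x ∂ωX := by
    intro f hf hfc
    obtain ⟨g, hg, hgc, hg1, hg0⟩ := exists_one hfc
    have := h2 f g hf hfc hg hgc (0, 0)
    simp only [K_eq C hC, integral_dirac, zero_mul', hC] at this
    have e : ∀ h, g h * f h = f h := by
      intro h
      by_cases hh : f h = 0
      · rw [hh, mul_zero]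
      · rw [hg1 h (subset_tsupport _ hh), one_mul]
    have e' : ∀ h, pi0 (0, 0) h = h := by
      intro h
      unfold pi0 ginv
      simp [mul]
    simp only [e, e'] at this
    rw [this]
    congr 1
    funext h
    rw [mul_comm, e]
  have hleft : ∀ (h : ℝ × ℝ) (f : ℝ × ℝ → ℝ), Continuous f → HasCompactSupport f →
      ∫ x, f (mul h x) ∂ωX = ∫ x, f x ∂ωX := by
    intro h f hf hfc
    rw [← heq f hf hfc, ← left_inv C hC hD h hf hfc]
    symm
    apply heq
    · exact hf.comp (continuous_mul' continuous_const continuous_id)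
    · refine HasCompactSupport.intro
        (hfc.image (continuous_mul' (continuous_const (y := ginv h)) continuous_id)) ?_
      intro x hx
      by_contra hne
      apply hx
      refine ⟨mul h x, subset_tsupport _ hne, ?_⟩
      show mul (ginv h) (mul h x) = x
      rw [← mul_assoc', ginv_mul, zero_mul']
  -- invariance under `d ↦ 2 d`
  have hscale : ∀ f : ℝ × ℝ → ℝ, Continuous f → HasCompactSupport f →
      ∫ x, f (x.1, 2 * x.2) ∂ωX = ∫ x, f x ∂ωX := by
    intro f hf hfc
    have e1 := hleft (Real.log 2, 0) (fun x => f (mul x (-Real.log 2, 0)))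
      (hf.comp (continuous_mul' continuous_id continuous_const)) (by
        refine HasCompactSupport.intro
          (hfc.image (continuous_mul' continuous_id
            (continuous_const (y := ginv (-Real.log 2, 0))))) ?_
        intro x hx
        by_contra hne
        apply hx
        exact ⟨mul x (-Real.log 2, 0), subset_tsupport _ hne, mul_right_cancel _ _⟩)
    rw [right_inv C hC hX (-Real.log 2, 0) hf hfc] at e1
    rw [← e1]
    congr 1
    funext x
    congr 1
    unfold mul
    ext
    · simp
    · simp [Real.exp_log]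
  have hshift : ∀ (b : ℝ) (f : ℝ × ℝ → ℝ), Continuous f → HasCompactSupport f →
      ∫ x, f (x.1, x.2 + b) ∂ωX = ∫ x, f x ∂ωX := by
    intro b f hf hfc
    rw [← hleft (0, b) f hf hfc]
    congr 1
    funext x
    congr 1
    unfold mul
    ext
    · simp
    · simp [add_comm]
  -- the tent function
  have hv := v_cont
  have hcont : ∀ a b : ℝ, Continuous fun x : ℝ × ℝ => v x.1 * v (a * x.2 + b) := by
    intro a b
    exact (hv.comp continuous_fst).mul (hv.comp (by fun_prop))
  have hsupp : ∀ a b : ℝ, 0 < a → HasCompactSupport fun x : ℝ × ℝ => v x.1 * v (a * x.2 + b) := by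
    intro a b ha
    refine HasCompactSupport.intro ((isCompact_Icc (a := (-1 : ℝ)) (b := 1)).prod
      (isCompact_Icc (a := (-1 - b) / a) (b := (1 - b) / a))) ?_
    intro x hx
    by_cases h1 : x.1 ∈ Set.Icc (-1 : ℝ) 1
    · have h2 : a * x.2 + b ∉ Set.Icc (-1 : ℝ) 1 := by
        intro h2
        apply hx
        refine Set.mem_prod.mpr ⟨h1, ?_, ?_⟩
        · rw [div_le_iff₀ ha]
          linarith [h2.1]
        · rw [le_div_iff₀ ha]
          linarith [h2.2]
      rw [v_supp h2, mul_zero]
    · rw [v_supp h1, zero_mul]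
  have hint : ∀ a b : ℝ, 0 < a → Integrable (fun x : ℝ × ℝ => v x.1 * v (a * x.2 + b)) ωX :=
    fun a b ha => (hcont a b).integrable_of_hasCompactSupport (hsupp a b ha)
  have s1 := hscale _ (hcont (1 / 2) 0) (hsupp (1 / 2) 0 (by norm_num))
  have s2 := hshift 1 _ (hcont 1 0) (hsupp 1 0 (by norm_num))
  have s3 := hshift (-1) _ (hcont 1 0) (hsupp 1 0 (by norm_num))
  simp only at s1 s2 s3
  have e1 : ∫ x : ℝ × ℝ, v x.1 * v (1 / 2 * x.2 + 0) ∂ωX =
      ∫ x : ℝ × ℝ, v x.1 * v (1 * x.2 + 0) ∂ωX +
      1 / 2 * ∫ x : ℝ × ℝ, v x.1 * v (1 * x.2 + 1) ∂ωX +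
      1 / 2 * ∫ x : ℝ × ℝ, v x.1 * v (1 * x.2 + -1) ∂ωX := by
    rw [← integral_const_mul, ← integral_const_mul, ← integral_add, ← integral_add]
    · congr 1
      funext x
      have := tent x.2
      rw [show (1 : ℝ) / 2 * x.2 + 0 = x.2 / 2 by ring, this]
      rw [show (1 : ℝ) * x.2 + 0 = x.2 by ring, one_mul]
      ring
    · exact (hint 1 0 (by norm_num)).add ((hint 1 1 (by norm_num)).const_mul _)
    · exact (hint 1 (-1) (by norm_num)).const_mul _
    · exact hint 1 0 (by norm_num)
    · exact (hint 1 1 (by norm_num)).const_mul _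
  have hpos : 0 < ∫ x : ℝ × ℝ, v x.1 * v (1 * x.2 + 0) ∂ωX := by
    refine Continuous.integral_pos_of_hasCompactSupport_nonneg_nonzero (x := ((0, 0) : ℝ × ℝ))
      (hcont 1 0) (hsupp 1 0 (by norm_num)) ?_ ?_
    · intro x
      exact mul_nonneg (v_nonneg _) (v_nonneg _)
    · simp [v]
  have t1 : ∀ x : ℝ × ℝ, (1 : ℝ) / 2 * (2 * x.2) + 0 = 1 * x.2 + 0 := by intro x; ring
  have t2 : ∀ x : ℝ × ℝ, (1 : ℝ) * (x.2 + 1) + 0 = 1 * x.2 + 1 := by intro x; ring
  have t3 : ∀ x : ℝ × ℝ, (1 : ℝ) * (x.2 + -1) + 0 = 1 * x.2 + -1 := by intro x; ring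
  simp only [t1] at s1
  simp only [t2] at s2
  simp only [t3] at s3
  linarith

end NoT2

end Pool.Agent.V1135.CASEx
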